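import Pool.Agent.Helper606.FW.P_main

/-!
# MP_d3aff2_an : the maximal discriminants of a Weil-Petersson quasicircle can be unbounded

Negative answer to Q1.  The definitions used by the statement (`IsWeilPetersson`, `loewnerEnergy`,
`dirichletEnergy`, `maxDisc`, `FF`, ...) are in `Pool/Agent/Helper606/FW/Defs.lean`.
-/

set_option autoImplicit false

namespace Pool.Agent.Results.MP_d3aff2_an.FeketeUnbounded

open Filter Topology Pool.Agent.Helper606.FW

/-- There is a Weil-Petersson quasicircle `η` of unit capacity (a Jordan curve around `0` whose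
Loewner energy `E_𝔻(log|f'|) + E_𝔻*(log|g'|) + 4 log (r/f'(0))` is finite, with `r = 1`) for which
`F_n(η) = 8 log (Z_{n,∞}(η)/n^n)` is unbounded above along every tail of the integers, so that
`F_n(η)` has no finite limit. -/
theorem result : ∃ η : Set ℂ, IsWeilPetersson η 1 ∧ (∀ n : ℕ, BddAbove (discSet n η)) ∧
    (∀ (C : ℝ) (N : ℕ), ∃ n ≥ N, C < FF n η) ∧
    ¬ ∃ L : ℝ, Tendsto (fun n => FF n η) atTop (𝓝 L) := main

end Pool.Agent.Results.MP_d3aff2_an.FeketeUnbounded
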